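import Pool.Agent.Q197.WN.Half

/-!
# Oppermann's conjecture: the exact entropy budget and the exact price of its exceptions, for all random sets
-/

set_option autoImplicit false

namespace Pool.Agent.Results.MP_bf4c7f_nt.EntropyBudget

open Finset Filter Pool.Agent.Q197.WN Pool.Agent.Q120.CL Pool.Agent.Q120.HL Pool.Agent.Q120.ET
open scoped Topology

/-- The integers strictly between two consecutive pronic numbers. -/
def W (x : ℕ) : Finset ℕ := Ioo (x ^ 2 - x) (x ^ 2 + x)

open Classical in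
/-- The number of the elements of `S` strictly between `a` and `b`. -/
noncomputable def number (a b : ℕ) (S : Set ℕ) : ℕ := ((Ioo a b).filter (fun y => y ∈ S)).card

/-- The smaller of the two numbers of elements around `x ^ 2`. -/
noncomputable def Q (x : ℕ) (S : Set ℕ) : ℕ := min (number (x ^ 2 - x) (x ^ 2) S) (number (x ^ 2) (x ^ 2 + x) S)

/-- The expected number of elements in each of the two intervals. -/
noncomputable def E (x : ℕ) : ℝ := 1 * x / (2 * Real.log x)

/-- The entropy budget and the price of the exceptions. -/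
theorem result (z : ℕ → ℕ) (hs : ∀ η : ℝ, 0 < η → ∀ᶠ k : ℕ in atTop, (z k : ℝ) ≤ η * k) :
    Phase (pr z) W Q E (fun k M => (M : ℝ) * (2 ^ k / k)) ∧ Low (pr z) W Q E := by
  have hsub : ∀ n : ℕ, n ≤ n ^ 2 := fun n => Nat.le_self_pow (by norm_num) n
  have hl : Wins (fun n => n ^ 2 - n + 1) (fun n => n ^ 2) (1 / 4) := by
    refine Wins.of ?_ ?_ ?_ ?_
    · filter_upwards [eventually_ge_atTop 1] with n hn
      obtain ⟨m, rfl⟩ := Nat.exists_eq_add_of_le hn
      have e : (1 + m) ^ 2 - (1 + m) + 1 = m ^ 2 + m + 1 := by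
        have : (1 + m) ^ 2 = (1 + m) + (m ^ 2 + m) := by ring
        omega
      rw [e]
      nlinarith [Nat.zero_le (m ^ 2)]
    · filter_upwards [eventually_ge_atTop 4] with n hn
      obtain ⟨m, rfl⟩ := Nat.exists_eq_add_of_le hn
      have e : (4 + m) ^ 2 - (4 + m) + 1 = m ^ 2 + 7 * m + 13 := by
        have : (4 + m) ^ 2 = (4 + m) + (m ^ 2 + 7 * m + 12) := by ring
        omega
      have e2 : (4 + m) ^ 2 = m ^ 2 + 7 * m + 13 + (m + 3) := by ring
      rw [e, e2, Nat.add_sub_cancel_left]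
      refine ⟨by omega, ?_⟩
      have h2 : (m + 3) ^ 4 = m ^ 4 + 12 * m ^ 3 + 54 * m ^ 2 + 108 * m + 81 := by ring
      rw [h2]
      nlinarith [Nat.zero_le (m ^ 4), Nat.zero_le (m ^ 3), Nat.zero_le (m ^ 2)]
    · filter_upwards [eventually_ge_atTop 1] with n hn
      obtain ⟨m, rfl⟩ := Nat.exists_eq_add_of_le hn
      have e : (1 + m) ^ 2 - (1 + m) + 1 = m ^ 2 + m + 1 := by
        have : (1 + m) ^ 2 = (1 + m) + (m ^ 2 + m) := by ring
        omega
      rw [e]
      nlinarith [sq_nonneg ((m : ℤ) - 1), Nat.zero_le (m ^ 2)]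
    · intro i j hij
      obtain ⟨m, rfl⟩ := Nat.exists_eq_add_of_lt hij
      show i ^ 2 ≤ (i + m + 1) ^ 2 - (i + m + 1) + 1
      have e : (i + m + 1) ^ 2 = (i + m + 1) + ((i + m + 1) * (i + m)) := by ring
      rw [e, Nat.add_sub_cancel_left]
      nlinarith [Nat.zero_le (i * m), Nat.zero_le (m ^ 2)]
  have hr : Wins (fun n => n ^ 2 + 1) (fun n => n ^ 2 + n) (1 / 4) := by
    refine Wins.of ?_ ?_ ?_ ?_
    · filter_upwards with n
      have := hsub n
      omega
    · filter_upwards [eventually_ge_atTop 4] with n hn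
      obtain ⟨m, rfl⟩ := Nat.exists_eq_add_of_le hn
      have e2 : (4 + m) ^ 2 + (4 + m) = (4 + m) ^ 2 + 1 + (m + 3) := by ring
      rw [e2, Nat.add_sub_cancel_left]
      refine ⟨by omega, ?_⟩
      have h2 : (m + 3) ^ 4 = m ^ 4 + 12 * m ^ 3 + 54 * m ^ 2 + 108 * m + 81 := by ring
      rw [h2]
      nlinarith [Nat.zero_le (m ^ 4), Nat.zero_le (m ^ 3), Nat.zero_le (m ^ 2)]
    · filter_upwards [eventually_ge_atTop 4] with n hn
      nlinarith
    · intro i j hij
      obtain ⟨m, rfl⟩ := Nat.exists_eq_add_of_lt hij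
      show i ^ 2 + i ≤ (i + m + 1) ^ 2 + 1
      nlinarith [Nat.zero_le (i * m), Nat.zero_le (m ^ 2)]
  have hcl : ∀ n : ℕ, ((n ^ 2 - n + 1 : ℕ) : ℝ) = (n : ℝ) ^ 2 - n + 1 := by
    intro n
    rw [Nat.cast_add, Nat.cast_sub (hsub n)]
    push_cast
    ring
  have hEl : Asy E (wt (fun n => n ^ 2 - n + 1) (fun n => n ^ 2) 1) 1 := by
    refine sq_asy hl (c := 1 / 2) (C := 1) (β := 1) (by norm_num) one_pos ?_ ?_ (fun n => rfl)
    · filter_upwards [eventually_ge_atTop 2] with n hn
      have hn' : (2 : ℝ) ≤ n := by exact_mod_cast hn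
      rw [hcl]
      constructor <;> nlinarith
    · refine lin_ratio (γ := -1) one_pos ?_
      filter_upwards with n
      rw [hcl]
      push_cast
      ring
  have hEr : Asy E (wt (fun n => n ^ 2 + 1) (fun n => n ^ 2 + n) 1) 1 := by
    refine sq_asy hr (c := 1) (C := 2) (β := 1) one_pos (by norm_num) ?_ ?_ (fun n => rfl)
    · filter_upwards [eventually_ge_atTop 2] with n hn
      have hn' : (2 : ℝ) ≤ n := by exact_mod_cast hn
      push_cast
      constructor <;> nlinarith
    · refine lin_ratio (γ := -1) one_pos ?_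
      filter_upwards with n
      push_cast
      ring
  have h1 := half_elem hl hr (fun n => by omega) (fun n => ⟨by omega, by omega⟩) (by
    intro i j hij
    rw [Finset.disjoint_left]
    intro x hx hx'
    rw [mem_Ico] at hx hx'
    rcases lt_or_gt_of_ne hij with h | h
    · have h3 : i ^ 2 + i ≤ j ^ 2 - j + 1 := by
        obtain ⟨m, rfl⟩ := Nat.exists_eq_add_of_lt h
        have e : (i + m + 1) ^ 2 = (i + m + 1) + ((i + m + 1) * (i + m)) := by ring
        rw [e, Nat.add_sub_cancel_left]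
        nlinarith [Nat.zero_le (i * m), Nat.zero_le (m ^ 2)]
      omega
    · have h3 : j ^ 2 + j ≤ i ^ 2 - i + 1 := by
        obtain ⟨m, rfl⟩ := Nat.exists_eq_add_of_lt h
        have e : (j + m + 1) ^ 2 = (j + m + 1) + ((j + m + 1) * (j + m)) := by ring
        rw [e, Nat.add_sub_cancel_left]
        nlinarith [Nat.zero_le (j * m), Nat.zero_le (m ^ 2)]
      omega) hs hEl hEr
  have e1 : ∀ a b : ℕ, Ico (a + 1) b = Ioo a b := by
    intro a b
    ext x
    rw [mem_Ico, mem_Ioo]
    omega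
  have eW : (fun n : ℕ => Ico (n ^ 2 - n + 1) (n ^ 2 + n)) = W := by
    funext n
    exact e1 _ _
  have eQ : (fun (n : ℕ) (S : Set ℕ) => min (els (Ico (n ^ 2 - n + 1) (n ^ 2)) S) (els (Ico (n ^ 2 + 1) (n ^ 2 + n)) S)) = Q := by
    funext n S
    unfold els Q number
    rw [e1, e1]
  rw [eW, eQ] at h1
  exact ⟨sq_phase (β := 1) one_pos (fun n => rfl) h1.1, h1.2⟩

end Pool.Agent.Results.MP_bf4c7f_nt.EntropyBudget
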