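import Pool.Agent.Q204.CD.Joint
import Pool.Agent.Q253.Cov.Pig

/-!
# Numbers with at most three prime factors in Oppermann's intervals: joint translates

For any number of Oppermann's intervals (for instance both intervals of several `x`) there are offsets `e_1, ..., e_m` such that the number of
the `y` for which `e_i + y` lies in the `i`-th interval and has at most three prime factors for ALL `i` has at least the order of
magnitude predicted by Hardy and Littlewood for the `m`-tuple of the `e_i`; and the set of these `y` contains narrow progressions.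

The joint sifting system of several windows, with shifts chosen by averaging. Libraries (starting files): `Y882.KW` (weighted linear sieve),
`Y843.HS.fin` (Szemerédi relative to sifted sets), `H177R2.SD.Avg`.
-/

set_option autoImplicit false

namespace Pool.Agent.Results.MP_bf4c7f_nt.JointTranslates

open Finset Filter
open Pool.Agent.Y843.HS (Pr VV Pr_mem Pr_prime)
open Pool.Agent.Q253.Cov (GLn pigeon)
open Pool.Agent.Q204.CD (lin_joint Zj Zj_card)

open Classical in
/-- the `n ≥ 2` with `A < n ≤ A + H` having at most `r` prime factors (with multiplicity), all at least `z` -/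
noncomputable def AlmostPrimes (r : ℕ) (z : ℝ) (A H : ℕ) : Finset ℕ :=
  (Ioc A (A + H)).filter (fun n => 2 ≤ n ∧ n.primeFactorsList.length ≤ r ∧ ∀ p : ℕ, p.Prime → p ∣ n → z ≤ p)

/-- the product over the primes `p ≤ H` of `1 - ρ(p) / p`, `ρ(p)` the number of different residues of the `e i` modulo `p` -/
noncomputable def dens {m : ℕ} (e : Fin m → ℕ) (H : ℕ) : ℝ :=
  ∏ p ∈ (Icc 1 H).filter Nat.Prime, (1 - ((univ.image (fun i => e i % p)).card : ℝ) / p)

lemma al_eq (r : ℕ) (z : ℝ) (A H : ℕ) : AlmostPrimes r z A H = GLn r z 1 0 A H := by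
  classical
  unfold AlmostPrimes GLn
  apply filter_congr
  intro n _
  rw [one_mul, add_zero]

lemma Pr_eq (H : ℕ) : Pr 0 H = (Icc 1 H).filter Nat.Prime := by
  ext p
  rw [Pr_mem, mem_filter, mem_Icc]
  constructor
  · rintro ⟨⟨a, b⟩, c⟩
    exact ⟨⟨c.pos, b⟩, c⟩
  · rintro ⟨⟨a, b⟩, c⟩
    exact ⟨⟨c.pos, b⟩, c⟩

lemma dens_eq {m : ℕ} (e : Fin m → ℕ) (H : ℕ) : dens e H = VV (Zj e) 0 H := by
  unfold dens VV
  rw [Pr_eq]
  apply prod_congr rfl
  intro p hp
  rw [Zj_card e (mem_filter.1 hp).2.pos]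

lemma fac_nonneg {m : ℕ} (e : Fin m → ℕ) (p : ℕ) (hp : p.Prime) : 0 ≤ 1 - ((univ.image (fun i => e i % p)).card : ℝ) / p := by
  have hp0 : (0 : ℝ) < p := by exact_mod_cast hp.pos
  rw [sub_nonneg, div_le_one hp0]
  have h1 : (univ.image (fun i => e i % p)).card ≤ p := by
    calc (univ.image (fun i => e i % p)).card ≤ (range p).card := card_le_card (by
          intro c hc
          rw [mem_image] at hc
          obtain ⟨i, _, rfl⟩ := hc
          exact mem_range.2 (Nat.mod_lt _ hp.pos))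
      _ = p := card_range p
  exact_mod_cast h1

lemma dens_anti {m : ℕ} (e : Fin m → ℕ) {H H' : ℕ} (h : H ≤ H') : dens e H' ≤ dens e H := by
  classical
  unfold dens
  have hsub : (Icc 1 H).filter Nat.Prime ⊆ (Icc 1 H').filter Nat.Prime := filter_subset_filter _ (Icc_subset_Icc_right h)
  rw [← prod_sdiff hsub]
  have h1 : ∏ p ∈ (Icc 1 H').filter Nat.Prime \ (Icc 1 H).filter Nat.Prime, (1 - ((univ.image (fun i => e i % p)).card : ℝ) / p) ≤ 1 := by
    apply Finset.prod_le_one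
    · intro p hp
      exact fac_nonneg e p (mem_filter.1 (mem_sdiff.1 hp).1).2
    · intro p hp
      have : (0 : ℝ) ≤ ((univ.image (fun i => e i % p)).card : ℝ) / p := by positivity
      linarith
  have h2 : 0 ≤ ∏ p ∈ (Icc 1 H).filter Nat.Prime, (1 - ((univ.image (fun i => e i % p)).card : ℝ) / p) :=
    prod_nonneg fun p hp => fac_nonneg e p (mem_filter.1 hp).2
  calc _ ≤ 1 * ∏ p ∈ (Icc 1 H).filter Nat.Prime, (1 - ((univ.image (fun i => e i % p)).card : ℝ) / p) :=
        mul_le_mul_of_nonneg_right h1 h2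
    _ = _ := one_mul _

/-- **Joint translates in Oppermann's intervals.** (1) Let `h ≤ 1` and `25 < 3 (8 r - 1) h`. For all `m ≥ 1` and `ε > 0` there is
`c > 0` such that for all `k` and `η > 0` there is `D` such that for all large `X`, all `H ≥ X ^ h` and ANY `m` intervals
`(A_i, A_i + H]` with `H ≤ A_i`, `A_i + H ≤ X`, and any sets `S_i` of relative density at least `ε` in the sets of the numbers of these
intervals with at most `r` prime factors, all `≥ X ^ (h / 5)`, there are offsets `e_1, ..., e_m` such that at least `c H dens e H` of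
the `y ≤ H` satisfy `e_i + y ∈ S_i` for all `i`, and every set of relative density at least `η` of such `y` contains a progression
of length `k` with difference `≤ log ^ D X`. (2) Let `λ ≥ 1` and `50 λ < 3 (8 r - 1)` (`r = 3`: `λ < 1.38`). For all `m ≥ 1` and `c₀` there is
`γ > 0` such that for all `k` there is `D` such that for all large `N`, all `x_1, ..., x_m` in `[N, N ^ λ]`, all choices of `m` Oppermann intervals
`(A_i, A_i + x_i)`, `A_i = x_i ^ 2 - x_i` or `x_i ^ 2`, and all colourings `χ_i` of the integers with `c₀` colours there are offsets `e_i`, numbers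
`s_i ∈ [1, r]` and colours `b_i` such that the set `J` of the `y ≤ N` for which for ALL `i` the number `e_i + y` lies in `(A_i, A_i + x_i)`,
has exactly `s_i` prime factors (with multiplicity), all `≥ N ^ (1/6)`, and has the colour `b_i`, has at least `γ N dens e N` elements
and contains a progression of length `k` with difference `≤ log ^ D N`. -/
theorem result :
    (∀ (r : ℕ) (h : ℝ), h ≤ 1 → 1 ≤ r → 25 < 3 * (8 * (r : ℝ) - 1) * h → ∀ (m : ℕ) (ε : ℝ), 1 ≤ m → 0 < ε →
      ∃ c : ℝ, 0 < c ∧ ∀ (k : ℕ) (η : ℝ), 0 < η → ∃ D X₀ : ℕ, ∀ X : ℕ, X₀ ≤ X → ∀ H : ℕ, (X : ℝ) ^ h ≤ H →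
      ∀ A : Fin m → ℕ, (∀ i, H ≤ A i ∧ A i + H ≤ X) →
      ∀ S : Fin m → Finset ℕ, (∀ i, S i ⊆ AlmostPrimes r ((X : ℝ) ^ (h / 5)) (A i) H ∧
        ε * ((AlmostPrimes r ((X : ℝ) ^ (h / 5)) (A i) H).card : ℝ) ≤ (S i).card) →
      ∃ e : Fin m → ℕ, ∃ J : Finset ℕ, (∀ y, y ∈ J ↔ (1 ≤ y ∧ y ≤ H ∧ ∀ i, e i + y ∈ S i)) ∧
        c * (H * dens e H) ≤ (J.card : ℝ) ∧
        ∀ S' ⊆ J, η * (J.card : ℝ) ≤ S'.card → ∃ a d : ℕ, 1 ≤ d ∧ (d : ℝ) ≤ Real.log X ^ D ∧ ∀ l < k, a + l * d ∈ S') ∧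
    (∀ (r : ℕ) (lam : ℝ), 1 ≤ r → 1 ≤ lam → 50 * lam < 3 * (8 * (r : ℝ) - 1) → ∀ m c₀ : ℕ, 1 ≤ m →
      ∃ γ : ℝ, 0 < γ ∧ ∀ k : ℕ, ∃ D N₀ : ℕ, ∀ N : ℕ, N₀ ≤ N → ∀ x A : Fin m → ℕ,
      (∀ i, N ≤ x i ∧ (x i : ℝ) ≤ (N : ℝ) ^ lam ∧ (A i = x i ^ 2 - x i ∨ A i = x i ^ 2)) → ∀ χ : Fin m → ℕ → Fin c₀,
      ∃ e s : Fin m → ℕ, ∃ b : Fin m → Fin c₀, ∃ J : Finset ℕ, (∀ i, 1 ≤ s i ∧ s i ≤ r) ∧
        (∀ y ∈ J, 1 ≤ y ∧ y ≤ N ∧ ∀ i, A i < e i + y ∧ e i + y < A i + x i ∧ (e i + y).primeFactorsList.length = s i ∧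
          χ i (e i + y) = b i ∧ ∀ p : ℕ, p.Prime → p ∣ e i + y → (N : ℝ) ^ (1 / 6 : ℝ) ≤ p) ∧
        γ * (N * dens e N) ≤ (J.card : ℝ) ∧
        ∃ a d : ℕ, 1 ≤ d ∧ (d : ℝ) ≤ Real.log N ^ D ∧ ∀ l < k, a + l * d ∈ J) := by
  classical
  refine ⟨?_, ?_⟩
  · intro r h hh hr1 hr m ε hm hε
    obtain ⟨c, hc, H1⟩ := lin_joint r h hh hr1 hr m hm ε hε
    refine ⟨c, hc, ?_⟩
    intro k η hη
    obtain ⟨D, X₀, H2⟩ := H1 k η hη
    refine ⟨D, X₀, ?_⟩
    intro X hX H hH A hA S hS
    simp only [al_eq] at hS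
    simp only [dens_eq]
    exact H2 X hX H hH A hA S (fun i => (hS i).1) (fun i => (hS i).2)
  · intro r lam hr1 hlam hr m c₀ hm
    have hr1r : (1 : ℝ) ≤ r := by exact_mod_cast hr1
    have h8 : (0 : ℝ) < 3 * (8 * (r : ℝ) - 1) := by linarith
    -- the exponent
    obtain ⟨h₀, hh₀⟩ : ∃ h₀ : ℝ, h₀ = 25 / (3 * (8 * r - 1)) := ⟨_, rfl⟩
    obtain ⟨h₁, hh₁⟩ : ∃ h₁ : ℝ, h₁ = 1 / (2 * lam) := ⟨_, rfl⟩
    have hh₀0 : 0 < h₀ := by rw [hh₀]; positivity
    have h01 : h₀ < h₁ := by
      rw [hh₀, hh₁, div_lt_div_iff₀ h8 (by positivity)]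
      linarith
    have hh₁1 : h₁ ≤ 1 := by
      rw [hh₁, div_le_one (by positivity)]
      linarith
    have hlh : lam * h₁ = 1 / 2 := by
      rw [hh₁]
      field_simp
    obtain ⟨h, hh⟩ : ∃ h, h = max ((h₀ + h₁) / 2) (11 / 12 * h₁) := ⟨_, rfl⟩
    have hha : (h₀ + h₁) / 2 ≤ h := by rw [hh]; exact le_max_left _ _
    have hhb : 11 / 12 * h₁ ≤ h := by rw [hh]; exact le_max_right _ _
    have hh1 : h < h₁ := by
      rw [hh]
      apply max_lt <;> linarith
    have hh0 : 0 < h := by linarith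
    have hcond : 25 < 3 * (8 * (r : ℝ) - 1) * h := by
      have h2 : h₀ < h := by linarith
      rw [hh₀, div_lt_iff₀ h8] at h2
      linarith
    obtain ⟨γ, hγ, H0⟩ := lin_joint r h (by linarith) hr1 hcond m hm (1 / ((r * c₀ : ℕ) + 1 : ℝ)) (by positivity)
    refine ⟨γ / 2, by positivity, ?_⟩
    intro k
    obtain ⟨D, X₀, H1⟩ := H0 k 1 one_pos
    -- eventual inequalities
    have hgap : 0 < 1 - 2 * lam * h := by nlinarith
    have ev1 : ∀ᶠ N : ℕ in atTop, (10 : ℝ) ^ h * 2 ≤ (N : ℝ) ^ (1 - 2 * lam * h) :=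
      ((tendsto_rpow_atTop hgap).comp tendsto_natCast_atTop_atTop).eventually_ge_atTop _
    have ev2 : ∀ᶠ N : ℕ in atTop, max (3 + 2 * lam) 2 ≤ Real.log N :=
      (Real.tendsto_log_atTop.comp tendsto_natCast_atTop_atTop).eventually_ge_atTop _
    obtain ⟨N₁, hN₁⟩ := eventually_atTop.1 (ev1.and ev2)
    refine ⟨2 * D, max (max N₁ X₀) 3, ?_⟩
    intro N hN x A hxA χ
    obtain ⟨g1, g2⟩ := hN₁ N (((le_max_left _ _).trans (le_max_left _ _)).trans hN)
    have hNX₀ : X₀ ≤ N := ((le_max_right _ _).trans (le_max_left _ _)).trans hN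
    have hN3 : 3 ≤ N := (le_max_right _ _).trans hN
    have hNr : (3 : ℝ) ≤ N := by exact_mod_cast hN3
    have hN0 : (0 : ℝ) < N := by linarith
    have hN1 : (1 : ℝ) ≤ N := by linarith
    have g2a : 3 + 2 * lam ≤ Real.log N := (le_max_left _ _).trans g2
    have g2b : 2 ≤ Real.log N := (le_max_right _ _).trans g2
    obtain ⟨H, hH⟩ : ∃ H : ℕ, H = N - 1 := ⟨_, rfl⟩
    have hHN : H + 1 = N := by omega
    have hHr : (H : ℝ) = N - 1 := by
      have : ((H + 1 : ℕ) : ℝ) = N := by rw [hHN]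
      push_cast at this
      linarith
    have hHge : (N : ℝ) / 2 ≤ H := by
      rw [hHr]
      linarith
    obtain ⟨X, hX⟩ : ∃ X : ℕ, X = ⌈9 * (N : ℝ) ^ (2 * lam)⌉₊ := ⟨_, rfl⟩
    have hXge : 9 * (N : ℝ) ^ (2 * lam) ≤ X := by rw [hX]; exact Nat.le_ceil _
    have hNl1 : (1 : ℝ) ≤ (N : ℝ) ^ (2 * lam) := Real.one_le_rpow hN1 (by positivity)
    have hXle : (X : ℝ) ≤ 10 * (N : ℝ) ^ (2 * lam) := by
      have h1 := Nat.ceil_lt_add_one (show 0 ≤ 9 * (N : ℝ) ^ (2 * lam) by positivity)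
      rw [← hX] at h1
      linarith
    have hNl : (N : ℝ) ≤ (N : ℝ) ^ (2 * lam) := by
      calc (N : ℝ) = (N : ℝ) ^ (1 : ℝ) := (Real.rpow_one _).symm
        _ ≤ _ := Real.rpow_le_rpow_of_exponent_le hN1 (by linarith)
    have hNX : N ≤ X := by
      have : (N : ℝ) ≤ X := by linarith
      exact_mod_cast this
    have hX0 : (0 : ℝ) < X := by linarith
    have hXH : (X : ℝ) ^ h ≤ H := by
      refine le_trans ?_ hHge
      calc (X : ℝ) ^ h ≤ (10 * (N : ℝ) ^ (2 * lam)) ^ h := Real.rpow_le_rpow hX0.le hXle hh0.le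
        _ = (10 : ℝ) ^ h * (N : ℝ) ^ (2 * lam * h) := by
            rw [Real.mul_rpow (by norm_num) (by positivity), ← Real.rpow_mul hN0.le]
        _ = ((10 : ℝ) ^ h * 2) * (N : ℝ) ^ (2 * lam * h) / 2 := by ring
        _ ≤ (N : ℝ) ^ (1 - 2 * lam * h) * (N : ℝ) ^ (2 * lam * h) / 2 := by gcongr
        _ = (N : ℝ) / 2 := by
            rw [← Real.rpow_add hN0]
            norm_num
    -- the windows
    have hA : ∀ i, H ≤ A i ∧ A i + H ≤ X := by
      intro i
      obtain ⟨e1, e2, e3⟩ := hxA i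
      have f1 : x i ≤ x i ^ 2 := Nat.le_self_pow (by norm_num) _
      have f2 : 2 * x i ≤ x i ^ 2 := by nlinarith
      have f3 : ((x i ^ 2 + x i : ℕ) : ℝ) ≤ X := by
        refine le_trans ?_ hXge
        have f5 : ((N : ℝ) ^ lam) ^ 2 = (N : ℝ) ^ (2 * lam) := by
          rw [← Real.rpow_natCast, ← Real.rpow_mul hN0.le]
          congr 1
          push_cast
          ring
        have f6 : ((x i : ℝ)) ^ 2 ≤ (N : ℝ) ^ (2 * lam) := by
          rw [← f5]
          exact pow_le_pow_left₀ (by positivity) e2 2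
        have f7 : (x i : ℝ) ≤ (x i : ℝ) ^ 2 := by exact_mod_cast f1
        push_cast
        linarith
      have f4 : x i ^ 2 + x i ≤ X := by exact_mod_cast f3
      rcases e3 with e3 | e3 <;> rw [e3] <;> constructor <;> omega
    -- the colour classes
    have hcls : ∀ i, ∃ se : ℕ × Fin c₀, 1 ≤ se.1 ∧ se.1 ≤ r ∧ 1 / ((r * c₀ : ℕ) + 1 : ℝ) *
        ((GLn r ((X : ℝ) ^ (h / 5)) 1 0 (A i) H).card : ℝ) ≤
        (((GLn r ((X : ℝ) ^ (h / 5)) 1 0 (A i) H).filter (fun j => (j.primeFactorsList.length, χ i j) = se)).card : ℝ) := by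
      intro i
      have hc0 : 0 < c₀ := by
        have := (χ i 0).2
        omega
      set G := GLn r ((X : ℝ) ^ (h / 5)) 1 0 (A i) H with hG
      obtain ⟨se, hse, hcard⟩ := pigeon G ((Icc 1 r) ×ˢ (univ : Finset (Fin c₀)))
        (fun j => (j.primeFactorsList.length, χ i j)) (by
          intro j hj
          rw [hG] at hj
          unfold GLn at hj
          rw [mem_filter] at hj
          simp only [one_mul, add_zero] at hj
          rw [mem_product, mem_Icc]
          refine ⟨⟨?_, hj.2.2.1⟩, mem_univ _⟩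
          by_contra hcon
          have h3 : j.primeFactorsList.length = 0 := by omega
          have h4 := List.length_eq_zero_iff.1 h3
          rw [Nat.primeFactorsList_eq_nil] at h4
          have := hj.2.1
          omega) (by
          refine ⟨(1, ⟨0, hc0⟩), ?_⟩
          rw [mem_product, mem_Icc]
          exact ⟨⟨le_rfl, hr1⟩, mem_univ _⟩)
      rw [mem_product, mem_Icc] at hse
      refine ⟨se, hse.1.1, hse.1.2, le_trans ?_ hcard⟩
      apply mul_le_mul_of_nonneg_right _ (by positivity)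
      have h1 : ((Icc 1 r) ×ˢ (univ : Finset (Fin c₀))).card = r * c₀ := by
        rw [card_product, Nat.card_Icc, card_univ, Fintype.card_fin, Nat.add_sub_cancel]
      rw [h1]
      apply one_div_le_one_div_of_le
      · have : 0 < r * c₀ := Nat.mul_pos hr1 hc0
        exact_mod_cast this
      · linarith
    choose se hse1 hse2 hse3 using hcls
    obtain ⟨e, J, hJ, hJc, hJap⟩ := H1 X (hNX₀.trans hNX) H hXH A hA
      (fun i => (GLn r ((X : ℝ) ^ (h / 5)) 1 0 (A i) H).filter (fun j => (j.primeFactorsList.length, χ i j) = se i))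
      (fun i => filter_subset _ _) hse3
    refine ⟨e, fun i => (se i).1, fun i => (se i).2, J, fun i => ⟨hse1 i, hse2 i⟩, ?_, ?_, ?_⟩
    · intro y hy
      obtain ⟨y1, y2, y3⟩ := (hJ y).1 hy
      refine ⟨y1, by omega, ?_⟩
      intro i
      have h3 := y3 i
      rw [mem_filter] at h3
      obtain ⟨h4, h5⟩ := h3
      unfold GLn at h4
      rw [mem_filter, mem_Ioc] at h4
      simp only [one_mul, add_zero] at h4
      obtain ⟨⟨a1, a2⟩, a3, a4, a5⟩ := h4
      have hxi := (hxA i).1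
      refine ⟨a1, by omega, congrArg Prod.fst h5, congrArg Prod.snd h5, ?_⟩
      intro p hp hpd
      refine le_trans ?_ (a5 p hp hpd)
      have h11 : (N : ℝ) ^ (2 * lam) ≤ X := by linarith
      calc (N : ℝ) ^ (1 / 6 : ℝ) ≤ (N : ℝ) ^ (2 * lam * (h / 5)) := by
            apply Real.rpow_le_rpow_of_exponent_le hN1
            have h12 : lam * (11 / 12 * h₁) ≤ lam * h := mul_le_mul_of_nonneg_left hhb (by linarith)
            linarith
        _ = ((N : ℝ) ^ (2 * lam)) ^ (h / 5) := by rw [Real.rpow_mul hN0.le]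
        _ ≤ _ := Real.rpow_le_rpow (by positivity) h11 (by positivity)
    · refine le_trans ?_ hJc
      rw [← dens_eq]
      have h1 : dens e N ≤ dens e H := dens_anti e (by omega)
      have h2 : 0 ≤ dens e N := prod_nonneg fun p hp => fac_nonneg e p (mem_filter.1 hp).2
      calc γ / 2 * (N * dens e N) = γ * (N / 2 * dens e N) := by ring
        _ ≤ γ * (H * dens e H) := by
            apply mul_le_mul_of_nonneg_left _ hγ.le
            exact mul_le_mul hHge h1 h2 (by positivity)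
    · obtain ⟨a, d, hd1, hd2, hd3⟩ := hJap J (subset_refl J) (by rw [one_mul])
      refine ⟨a, d, hd1, hd2.trans ?_, hd3⟩
      have h3 : Real.log X ≤ Real.log N ^ 2 := by
        have h4 := Real.log_le_log hX0 hXle
        rw [Real.log_mul (by norm_num) (by positivity), Real.log_rpow hN0] at h4
        have h5 : Real.log 10 ≤ 3 := by
          rw [Real.log_le_iff_le_exp (by norm_num)]
          have h7 : Real.exp 3 = Real.exp 1 ^ 3 := by rw [← Real.exp_nat_mul]; norm_num
          rw [h7]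
          have h8 := Real.exp_one_gt_d9
          calc (10 : ℝ) ≤ 2.7 ^ 3 := by norm_num
            _ ≤ Real.exp 1 ^ 3 := pow_le_pow_left₀ (by norm_num) (by linarith) 3
        calc Real.log X ≤ 3 + 2 * lam * Real.log N := by linarith
          _ ≤ (3 + 2 * lam) * Real.log N := by linarith
          _ ≤ Real.log N * Real.log N := mul_le_mul_of_nonneg_right g2a (by linarith)
          _ = _ := (sq _).symm
      have hlX : 0 ≤ Real.log X := Real.log_nonneg (by linarith)
      calc Real.log X ^ D ≤ (Real.log N ^ 2) ^ D := pow_le_pow_left₀ hlX h3 D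
        _ = _ := by rw [← pow_mul]

end Pool.Agent.Results.MP_bf4c7f_nt.JointTranslates
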