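import Pool.Agent.Q253.Host.AP

/-!
# MP_bf4c7f_nt: progressions of multipliers and of primes in the intervals of Oppermann's conjecture
-/

set_option autoImplicit false

namespace Pool.Agent.Results.MP_bf4c7f_nt.ProgressionsOfMultipliers

open Filter

/-- There are `k` multipliers `m + i d` (`i < k`), squarefree, at most `x ^ (1 / 2 - 2 δ)`, with all prime factors at least
`x ^ (2 δ)`, and for each `i` there are `k` primes `q + l e` (`l < k`) with `x < (m + i d) (q + l e) < y`; the differences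
`d`, `e ≥ 1` are at most `(log x) ^ D`. -/
def Config (δ : ℝ) (k D : ℕ) (x y : ℝ) : Prop :=
  ∃ m d : ℕ, 1 ≤ d ∧ (d : ℝ) ≤ Real.log x ^ D ∧ ∀ i < k,
    2 ≤ m + i * d ∧ Squarefree (m + i * d) ∧ ((m + i * d : ℕ) : ℝ) ≤ x ^ (1 / 2 - 2 * δ) ∧
    (∀ p : ℕ, p.Prime → p ∣ m + i * d → x ^ (2 * δ) ≤ p) ∧
    ∃ q e : ℕ, 1 ≤ e ∧ (e : ℝ) ≤ Real.log x ^ D ∧ ∀ l < k, (q + l * e).Prime ∧
      x < ((m + i * d) * (q + l * e) : ℕ) ∧ (((m + i * d) * (q + l * e) : ℕ) : ℝ) < y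

theorem result : ∃ δ : ℝ, 0 < δ ∧ ∀ k : ℕ, ∃ D N : ℕ,
    (∀ x : ℝ, N ≤ x → Config δ k D x (x + x ^ (1 / 2 - δ))) ∧
    (∀ n : ℕ, N ≤ n → Config δ k D ((n : ℝ) ^ 2 - n) ((n : ℝ) ^ 2) ∧ Config δ k D ((n : ℝ) ^ 2) ((n : ℝ) ^ 2 + n)) := by
  obtain ⟨δ₀, hδ₀, hδ16, H0⟩ := Pool.Agent.Q253.Host.main_ap
  obtain ⟨δ, hδ⟩ : ∃ δ : ℝ, δ = δ₀ / 2 := ⟨_, rfl⟩
  have hd0 : 0 < δ := by rw [hδ]; positivity
  refine ⟨δ, hd0, fun k => ?_⟩
  obtain ⟨D, x₀, H1⟩ := H0 k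
  obtain ⟨N, hN⟩ : ∃ N : ℕ, max x₀ 4 ≤ N := exists_nat_ge _
  have hgen : ∀ x : ℝ, N ≤ x → Config δ k D x (x + x ^ (1 / 2 - δ)) := by
    intro x hx
    have hx₀ : x₀ ≤ x := ((le_max_left _ _).trans hN).trans hx
    have hx4 : 4 ≤ x := ((le_max_right _ _).trans hN).trans hx
    have hx1 : 1 < x := by linarith
    have h1 : x ^ (1 / 2 - δ₀) < x ^ (1 / 2 - δ) := Real.rpow_lt_rpow_of_exponent_lt hx1 (by linarith)
    have h2 : x ^ (1 / 2 - δ₀) ≤ x := by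
      calc x ^ (1 / 2 - δ₀) ≤ x ^ (1 : ℝ) := Real.rpow_le_rpow_of_exponent_le hx1.le (by linarith)
        _ = x := Real.rpow_one x
    obtain ⟨m, d, hd1, hdD, hm⟩ := H1 x (x ^ (1 / 2 - δ₀)) hx₀ le_rfl h2
    refine ⟨m, d, hd1, hdD, fun i hi => ?_⟩
    obtain ⟨m1, m2, ⟨g1, g2, _⟩, q, e, he1, heD, hq⟩ := hm i hi
    refine ⟨m1, m2, g1.trans (Real.rpow_le_rpow_of_exponent_le hx1.le (by linarith)), fun p hp hpm => ?_, q, e, he1, heD,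
      fun l hl => ?_⟩
    · exact (Real.rpow_le_rpow_of_exponent_le hx1.le (by linarith)).trans (g2 p hp hpm)
    · obtain ⟨q1, q2, q3⟩ := hq l hl
      exact ⟨q1, q2, by linarith⟩
  have hmono : ∀ x y z : ℝ, Config δ k D x y → y ≤ z → Config δ k D x z := by
    intro x y z h hyz
    obtain ⟨m, d, hd1, hdD, hm⟩ := h
    refine ⟨m, d, hd1, hdD, fun i hi => ?_⟩
    obtain ⟨m1, m2, m3, m4, q, e, he1, heD, hq⟩ := hm i hi
    refine ⟨m1, m2, m3, m4, q, e, he1, heD, fun l hl => ?_⟩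
    obtain ⟨q1, q2, q3⟩ := hq l hl
    exact ⟨q1, q2, by linarith⟩
  have hpow : ∀ n x : ℝ, 1 ≤ x → x ≤ n ^ 2 → 0 ≤ n → x ^ (1 / 2 - δ) ≤ n := by
    intro n x hx hxn hn
    calc x ^ (1 / 2 - δ) ≤ x ^ (1 / 2 : ℝ) := Real.rpow_le_rpow_of_exponent_le hx (by linarith)
      _ = Real.sqrt x := (Real.sqrt_eq_rpow x).symm
      _ ≤ Real.sqrt (n ^ 2) := Real.sqrt_le_sqrt hxn
      _ = n := Real.sqrt_sq hn
  refine ⟨D, N, hgen, fun n hn => ?_⟩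
  have hnr : (N : ℝ) ≤ n := by exact_mod_cast hn
  have hN4 : (4 : ℝ) ≤ N := (le_max_right _ _).trans hN
  have hn4 : (4 : ℝ) ≤ n := by linarith
  constructor
  · have hx : (N : ℝ) ≤ (n : ℝ) ^ 2 - n := by nlinarith
    apply hmono _ _ _ (hgen _ hx)
    have := hpow n ((n : ℝ) ^ 2 - n) (by linarith) (by linarith) (by linarith)
    linarith
  · have hx : (N : ℝ) ≤ (n : ℝ) ^ 2 := by nlinarith
    apply hmono _ _ _ (hgen _ hx)
    have := hpow n ((n : ℝ) ^ 2) (by linarith) le_rfl (by linarith)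
    linarith

end Pool.Agent.Results.MP_bf4c7f_nt.ProgressionsOfMultipliers
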