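import Pool.Agent.Q106.OP.Fun

/-!
# Oppermann's intervals in Cramér's random model: Strassen's functional law

`A` is Cramér's random model of the primes: the events `n ∈ A`, `n ≥ 3`, are independent with the probabilities
`1 / log n`. For an integer `x` and a real `t ≥ 0` put

`F_x(t) = (#{n ∈ A : x² - x < n ≤ x² - x + t x} - t x / (2 log x)) / √x`,

so that `F_x(1)` describes Oppermann's first interval `(x² - x, x²)`, `F_x(2) - F_x(1)` the second one `(x², x² + x)` and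
`F_x` on `[2 i, 2 i + 2]` the intervals further on. Let `K_T` be the set of the functions `f(t) = ∫₀ᵗ g` on `[0, T]` with
`∫₀ᵀ g² ≤ 1`. Almost surely, for every `T` and every `ε > 0`: for all large `x` the function `F_x` is within `ε` of `K_T`,
uniformly on `[0, T]`; and every function of `K_T` is within `ε` of `F_x` for some `x` in every block `[2^j, 2^(j+1))` with
`j` large. In particular the set of the limit points of the pairs of the normalised deviations of the two intervals of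
Oppermann is exactly the closed unit disc, and both intervals contain elements of `A` for all large `x`.
-/

set_option autoImplicit false

namespace Pool.Agent.Results.MP_bf4c7f_nt.StrassenLaw

open Finset MeasureTheory Filter Pool.Agent.Q120.MF Pool.Agent.Q106.BR Pool.Agent.Q106.OP
open Pool.Agent.Q120.AD (hl)
open scoped Topology

/-- The number of the elements of `S` in the open interval `(x² - x, x²)`. -/
noncomputable def lo (S : Set ℕ) (x : ℕ) : ℕ := Set.ncard {n | n ∈ S ∧ x ^ 2 - x < n ∧ n < x ^ 2}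

/-- The number of the elements of `S` in the open interval `(x², x² + x)`. -/
noncomputable def hi (S : Set ℕ) (x : ℕ) : ℕ := Set.ncard {n | n ∈ S ∧ x ^ 2 < n ∧ n < x ^ 2 + x}

/-- The normalised deviation for the first interval. -/
noncomputable def Dm (S : Set ℕ) (x : ℕ) : ℝ := ((lo S x : ℝ) - x / (2 * Real.log x)) / √(x : ℝ)

/-- The normalised deviation for the second interval. -/
noncomputable def Dp (S : Set ℕ) (x : ℕ) : ℝ := ((hi S x : ℝ) - x / (2 * Real.log x)) / √(x : ℝ)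

/-- The law. `F S x t = F_x(t)`, and `InK T f`: `f` belongs to Strassen's set on `[0, T]`. -/
structure Law (S : Set ℕ) : Prop where
  /-- All the functions are close to Strassen's set. -/
  near : ∀ T : ℕ, 1 ≤ T → ∀ ε : ℝ, 0 < ε → ∀ᶠ x : ℕ in atTop, ∃ f, InK T f ∧
    ∀ t : ℝ, 0 ≤ t → t ≤ T → |F S x t - f t| ≤ ε
  /-- Every function of Strassen's set is approximated in every block. -/
  dense : ∀ T : ℕ, 1 ≤ T → ∀ f : ℝ → ℝ, InK T f → ∀ ε : ℝ, 0 < ε → ∀ᶠ j : ℕ in atTop,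
    ∃ x, 2 ^ j ≤ x ∧ x < 2 * 2 ^ j ∧ ∀ t : ℝ, 0 ≤ t → t ≤ T → |F S x t - f t| ≤ ε
  /-- The limit points for the two intervals of Oppermann. -/
  disc : ∀ u v : ℝ, MapClusterPt (u, v) atTop (fun x => (Dm S x, Dp S x)) ↔ u ^ 2 + v ^ 2 ≤ 1
  /-- Oppermann's conjecture for all large `x`. -/
  opp : ∀ᶠ x : ℕ in atTop, 1 ≤ lo S x ∧ 1 ≤ hi S x

theorem count_open {S : Set ℕ} {a b : ℕ} : ∀ c : ℕ, c = Set.ncard {n | n ∈ S ∧ a < n ∧ n < b} → by
    classical exact c ≤ ((Ioc a b).filter (fun n => n ∈ S)).card ∧ ((Ioc a b).filter (fun n => n ∈ S)).card ≤ c + 1 := by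
  classical
  intro c hc
  have h1 : c = ((Ioo a b).filter (fun n => n ∈ S)).card := by
    rw [hc, ← Set.ncard_coe_finset]
    congr 1
    ext n
    simp only [Set.mem_ofPred_eq, coe_filter, mem_Ioo]
    tauto
  rw [h1]
  constructor
  · refine card_le_card (fun n hn => ?_)
    rw [mem_filter, mem_Ioo] at hn
    rw [mem_filter, mem_Ioc]
    exact ⟨⟨hn.1.1, hn.1.2.le⟩, hn.2⟩
  · refine le_trans (card_le_card (t := insert b ((Ioo a b).filter (fun n => n ∈ S))) (fun n hn => ?_)) (card_insert_le _ _)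
    rw [mem_filter, mem_Ioc] at hn
    rw [mem_insert, mem_filter, mem_Ioo]
    rcases hn.1.2.lt_or_eq with h | h
    · exact Or.inr ⟨⟨hn.1.1, h⟩, hn.2⟩
    · exact Or.inl h

theorem bs_sq (x : ℕ) : x ^ 2 - x = bs x := by
  unfold bs
  rw [Nat.mul_sub, sq, mul_one]

theorem bs_add (x : ℕ) : bs x + x = x ^ 2 := by
  rw [← bs_sq]
  have : x ≤ x ^ 2 := Nat.le_self_pow (by norm_num) x
  omega

theorem lo_cn {S : Set ℕ} {x : ℕ} : lo S x ≤ cn S x 0 x ∧ cn S x 0 x ≤ lo S x + 1 := by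
  classical
  have h := count_open (S := S) (a := x ^ 2 - x) (b := x ^ 2) _ rfl
  unfold cn W
  rw [add_zero, bs_add, ← bs_sq]
  exact h

theorem hi_cn {S : Set ℕ} {x : ℕ} : hi S x ≤ cn S x x (2 * x) ∧ cn S x x (2 * x) ≤ hi S x + 1 := by
  classical
  have h := count_open (S := S) (a := x ^ 2) (b := x ^ 2 + x) _ rfl
  unfold cn W
  rw [two_mul, ← add_assoc, bs_add]
  exact h

theorem Dm_near {S : Set ℕ} {x : ℕ} : |Dm S x - dl S 1 x 0| ≤ 1 / √(x : ℝ) := by
  obtain ⟨h1, h2⟩ := lo_cn (S := S) (x := x)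
  have h1' : (lo S x : ℝ) ≤ cn S x 0 x := by exact_mod_cast h1
  have h2' : (cn S x 0 x : ℝ) ≤ lo S x + 1 := by exact_mod_cast h2
  unfold Dm dl Z en
  simp only [zero_mul, zero_add, one_mul, Nat.div_one, Nat.cast_zero, sub_zero]
  rw [← sub_div, abs_div, abs_of_nonneg (Real.sqrt_nonneg _)]
  apply div_le_div_of_nonneg_right _ (Real.sqrt_nonneg _)
  rw [abs_le]
  constructor <;> linarith

theorem Dp_near {S : Set ℕ} {x : ℕ} : |Dp S x - dl S 1 x 1| ≤ 1 / √(x : ℝ) := by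
  obtain ⟨h1, h2⟩ := hi_cn (S := S) (x := x)
  have h1' : (hi S x : ℝ) ≤ cn S x x (2 * x) := by exact_mod_cast h1
  have h2' : (cn S x x (2 * x) : ℝ) ≤ hi S x + 1 := by exact_mod_cast h2
  unfold Dp dl Z en
  simp only [one_mul, Nat.div_one, Nat.reduceAdd]
  have e1 : (((2 * x : ℕ) : ℝ) - x) = x := by push_cast; ring
  rw [e1, ← sub_div, abs_div, abs_of_nonneg (Real.sqrt_nonneg _)]
  apply div_le_div_of_nonneg_right _ (Real.sqrt_nonneg _)
  rw [abs_le]
  constructor <;> linarith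

/-- From the facts to the law. -/
theorem law_of_facts {S : Set ℕ} (h : Facts S) : Law S := by
  -- nothing beyond the disc
  have hup : ∀ ε : ℝ, 0 < ε → ∀ᶠ x : ℕ in atTop, Dm S x ^ 2 + Dp S x ^ 2 ≤ 1 + ε := by
    intro ε hε
    obtain ⟨δ, hδ⟩ : ∃ δ, δ = min ε 1 := ⟨_, rfl⟩
    have hδ0 : 0 < δ := by rw [hδ]; positivity
    have hδ1 : δ ≤ 1 := by rw [hδ]; exact min_le_right _ _
    have hδε : δ ≤ ε := by rw [hδ]; exact min_le_left _ _
    obtain ⟨k, hk⟩ := exists_nat_one_div_lt (show 0 < δ / 2 by linarith)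
    filter_upwards [h.up 1 2 k le_rfl, small_sqrt (c := 1) one_pos (show 0 < δ / 20 by linarith)]
      with x h1 h2
    have h4 := Dm_near (S := S) (x := x)
    have h5 := Dp_near (S := S) (x := x)
    simp only [one_mul, Nat.cast_one, sum_range_succ, sum_range_zero, zero_add] at h1
    obtain ⟨a, ha⟩ : ∃ a, a = dl S 1 x 0 := ⟨_, rfl⟩
    obtain ⟨b, hb⟩ : ∃ b, b = dl S 1 x 1 := ⟨_, rfl⟩
    rw [← ha] at h1 h4
    rw [← hb] at h1 h5
    have ha2 : a ^ 2 ≤ 2 := by nlinarith [sq_nonneg b]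
    have hb2 : b ^ 2 ≤ 2 := by nlinarith [sq_nonneg a]
    have ha3 : |a| ≤ 2 := abs_le_of_sq_le_sq (by nlinarith) (by norm_num)
    have hb3 : |b| ≤ 2 := abs_le_of_sq_le_sq (by nlinarith) (by norm_num)
    have e1 : ∀ c d : ℝ, |d| ≤ 2 → |c - d| ≤ δ / 20 → c ^ 2 ≤ d ^ 2 + δ / 4 := by
      intro c d hd hcd
      have e2 : c ^ 2 = d ^ 2 + (c - d) * (2 * d + (c - d)) := by ring
      have e3 : (c - d) * (2 * d + (c - d)) ≤ |c - d| * (2 * |d| + |c - d|) := by
        refine (le_abs_self _).trans ?_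
        rw [abs_mul]
        apply mul_le_mul_of_nonneg_left _ (abs_nonneg _)
        refine (abs_add_le _ _).trans ?_
        rw [abs_mul, abs_of_pos (show (0 : ℝ) < 2 by norm_num)]
      have e4 : |c - d| * (2 * |d| + |c - d|) ≤ δ / 20 * 5 := by
        apply mul_le_mul hcd _ (by positivity) (by linarith)
        linarith
      linarith
    have e5 := e1 _ _ ha3 (h4.trans h2)
    have e6 := e1 _ _ hb3 (h5.trans h2)
    linarith
  -- every point of the disc
  have hfreq : ∀ u v : ℝ, u ^ 2 + v ^ 2 ≤ 1 → ∀ ε : ℝ, 0 < ε → ∃ᶠ x in atTop, |Dm S x - u| ≤ ε ∧ |Dp S x - v| ≤ ε := by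
    intro u v huv ε hε
    obtain ⟨τ, hτ⟩ : ∃ τ, τ = min (1 / 2) (ε / 4) := ⟨_, rfl⟩
    have hτ0 : 0 < τ := by rw [hτ]; positivity
    have hτ1 : τ ≤ 1 / 2 := by rw [hτ]; exact min_le_left _ _
    have hτε : τ ≤ ε / 4 := by rw [hτ]; exact min_le_right _ _
    obtain ⟨p, hp1, hp2⟩ := exists_rat_near (c := (1 - τ) * u) (show 0 < ε / 4 by linarith)
    obtain ⟨r, hr1, hr2⟩ := exists_rat_near (c := (1 - τ) * v) (show 0 < ε / 4 by linarith)
    obtain ⟨k, hk⟩ := exists_nat_one_div_lt (show 0 < ε / 4 by linarith)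
    have hu1 : |u| ≤ 1 := abs_le_of_sq_le_sq (by nlinarith [sq_nonneg v]) (by norm_num)
    have hv1 : |v| ≤ 1 := abs_le_of_sq_le_sq (by nlinarith [sq_nonneg u]) (by norm_num)
    have hsum : ∑ i : Fin (1 * 2), ((1 : ℕ) : ℝ) * (((if (i : ℕ) = 0 then p else r) : ℚ) : ℝ) ^ 2 < 1 := by
      have e1 : ∑ i : Fin (1 * 2), ((1 : ℕ) : ℝ) * (((if (i : ℕ) = 0 then p else r) : ℚ) : ℝ) ^ 2 =
          ∑ i ∈ range (1 * 2), ((1 : ℕ) : ℝ) * (((if i = 0 then p else r) : ℚ) : ℝ) ^ 2 :=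
        (Finset.sum_range (fun i => ((1 : ℕ) : ℝ) * (((if i = 0 then p else r) : ℚ) : ℝ) ^ 2)).symm
      rw [e1]
      have e2 : (p : ℝ) ^ 2 ≤ ((1 - τ) * u) ^ 2 := sq_le_sq.2 hp2
      have e3 : (r : ℝ) ^ 2 ≤ ((1 - τ) * v) ^ 2 := sq_le_sq.2 hr2
      have e4 : (1 - τ) ^ 2 < 1 := by nlinarith
      have e5 : ((1 - τ) * u) ^ 2 + ((1 - τ) * v) ^ 2 = (1 - τ) ^ 2 * (u ^ 2 + v ^ 2) := by ring
      have e6 : (1 - τ) ^ 2 * (u ^ 2 + v ^ 2) ≤ (1 - τ) ^ 2 * 1 := mul_le_mul_of_nonneg_left huv (sq_nonneg _)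
      simp only [one_mul, Nat.cast_one, sum_range_succ, sum_range_zero, zero_add, if_true, one_ne_zero, if_false]
      linarith
    obtain ⟨j₀, hj₀⟩ := eventually_atTop.1 (h.low 1 2 k le_rfl (fun i => if (i : ℕ) = 0 then p else r) hsum)
    obtain ⟨x₀, hx₀⟩ := eventually_atTop.1 (small_sqrt (c := 1) one_pos (show 0 < ε / 4 by linarith))
    rw [frequently_atTop]
    intro a
    obtain ⟨x, h1, _, h3⟩ := hj₀ (max j₀ (max a (x₀ + 1))) (le_max_left _ _)
    have hj : max j₀ (max a (x₀ + 1)) < 2 ^ (max j₀ (max a (x₀ + 1))) := Nat.lt_two_pow_self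
    have hxa : a ≤ x := by
      have : a ≤ max j₀ (max a (x₀ + 1)) := (le_max_left _ _).trans (le_max_right _ _)
      omega
    have hxx : x₀ + 1 ≤ x := by
      have : x₀ + 1 ≤ max j₀ (max a (x₀ + 1)) := (le_max_right _ _).trans (le_max_right _ _)
      omega
    have h4 := hx₀ x (by omega)
    have h5 := Dm_near (S := S) (x := x)
    have h6 := Dp_near (S := S) (x := x)
    have h7 := h3 ⟨0, by norm_num⟩
    have h8 := h3 ⟨1, by norm_num⟩
    simp only [if_true, one_ne_zero, if_false] at h7 h8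
    refine ⟨x, hxa, ?_, ?_⟩
    · have e1 : Dm S x - u = (Dm S x - dl S 1 x 0) + (dl S 1 x 0 - p) + (p - (1 - τ) * u) + (-(τ * u)) := by ring
      have e2 : |-(τ * u)| ≤ ε / 4 := by
        rw [abs_neg, abs_mul, abs_of_pos hτ0]
        nlinarith [abs_nonneg u]
      rw [e1]
      refine (abs_add_le _ _).trans ?_
      have e3 := abs_add_three (Dm S x - dl S 1 x 0) (dl S 1 x 0 - p) (p - (1 - τ) * u)
      linarith
    · have e1 : Dp S x - v = (Dp S x - dl S 1 x 1) + (dl S 1 x 1 - r) + (r - (1 - τ) * v) + (-(τ * v)) := by ring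
      have e2 : |-(τ * v)| ≤ ε / 4 := by
        rw [abs_neg, abs_mul, abs_of_pos hτ0]
        nlinarith [abs_nonneg v]
      rw [e1]
      refine (abs_add_le _ _).trans ?_
      have e3 := abs_add_three (Dp S x - dl S 1 x 1) (dl S 1 x 1 - r) (r - (1 - τ) * v)
      linarith
  refine ⟨fun T hT ε hε => near h hT hε, fun T hT f hf ε hε => Pool.Agent.Q106.OP.dense h hT hf hε, ?_, ?_⟩
  · intro u v
    rw [mapClusterPt_iff_frequently]
    constructor
    · intro hcl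
      by_contra hcon
      push Not at hcon
      obtain ⟨ε, hε⟩ : ∃ ε, ε = (u ^ 2 + v ^ 2 - 1) / 2 := ⟨_, rfl⟩
      have hε0 : 0 < ε := by linarith
      have hclosed2 : IsClosed {p : ℝ × ℝ | p.1 ^ 2 + p.2 ^ 2 ≤ 1 + ε} :=
        isClosed_le ((continuous_fst.pow 2).add (continuous_snd.pow 2)) continuous_const
      have h1 := hcl {p : ℝ × ℝ | p.1 ^ 2 + p.2 ^ 2 ≤ 1 + ε}ᶜ (hclosed2.isOpen_compl.mem_nhds (by
        simp only [Set.mem_compl_iff, Set.mem_ofPred_eq, not_le]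
        linarith))
      obtain ⟨n, hn1, hn2⟩ := (h1.and_eventually (hup ε hε0)).exists
      exact hn1 hn2
    · intro h2 s hs
      obtain ⟨ε, hε, hball⟩ := Metric.mem_nhds_iff.1 hs
      refine (hfreq u v h2 (ε / 2) (by linarith)).mono (fun n hn => hball ?_)
      rw [Metric.mem_ball, Prod.dist_eq, Real.dist_eq, Real.dist_eq, max_lt_iff]
      constructor <;> linarith [hn.1, hn.2]
  · filter_upwards [hup 1 one_pos, ev_pw 16 1 (show (0 : ℝ) < 1 / 2 by norm_num), hl.eventually_ge_atTop 1,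
      eventually_ge_atTop 1] with x h1 h2 h3 h4
    have hx1 : (1 : ℝ) ≤ x := by exact_mod_cast h4
    have hx0 : (0 : ℝ) < x := by linarith
    have hs0 : 0 < √(x : ℝ) := Real.sqrt_pos.2 hx0
    have hs1 : 1 ≤ √(x : ℝ) := Real.one_le_sqrt.2 hx1
    have hss : √(x : ℝ) * √(x : ℝ) = x := Real.mul_self_sqrt hx0.le
    rw [← Real.sqrt_eq_rpow, pow_one] at h2
    have hL0 : 0 < Real.log (x : ℝ) := by linarith
    have key : 8 * √(x : ℝ) ≤ x / (2 * Real.log x) := by
      rw [le_div_iff₀ (by linarith)]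
      nlinarith
    have e1 : |Dm S x| ≤ 2 := abs_le_of_sq_le_sq (by nlinarith [sq_nonneg (Dp S x)]) (by norm_num)
    have e2 : |Dp S x| ≤ 2 := abs_le_of_sq_le_sq (by nlinarith [sq_nonneg (Dm S x)]) (by norm_num)
    have gen : ∀ c : ℕ, |((c : ℝ) - x / (2 * Real.log x)) / √(x : ℝ)| ≤ 2 → 1 ≤ c := by
      intro c hc
      rw [abs_div, abs_of_pos hs0, div_le_iff₀ hs0] at hc
      have e3 := (abs_le.1 hc).1
      have e4 : (1 : ℝ) ≤ c := by linarith
      exact_mod_cast e4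
    exact ⟨gen _ e1, gen _ e2⟩

/-- **Strassen's functional law for Oppermann's intervals in Cramér's model.** -/
theorem result : IsCramer cramerMeasure cramerSet ∧
    ∀ (Ω : Type) (_ : MeasurableSpace Ω) (μ : Measure Ω) (_ : IsProbabilityMeasure μ) (A : Ω → Set ℕ),
      IsCramer μ A → ∀ᵐ ω ∂μ, Law (A ω) := by
  refine ⟨isCramer, ?_⟩
  intro Ω _ μ _ A hA
  have h1 : ∀ᵐ ω ∂μ, ∀ q T k : ℕ, 1 ≤ q → ∀ᶠ x : ℕ in atTop,
      ∑ i ∈ range (q * T), (q : ℝ) * dl (A ω) q x i ^ 2 ≤ 1 + 1 / ((k : ℝ) + 1) := by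
    rw [ae_all_iff]
    intro q
    rw [ae_all_iff]
    intro T
    rw [ae_all_iff]
    intro k
    by_cases hq : 1 ≤ q
    · have hk : (0 : ℝ) < 1 / ((k : ℝ) + 1) := by positivity
      have := up_fin hA hq T hk (by
        rw [div_le_one (by positivity)]
        linarith [Nat.cast_nonneg (α := ℝ) k])
      filter_upwards [this] with ω hω _
      exact hω
    · filter_upwards with ω h
      exact absurd h hq
  have h2 : ∀ᵐ ω ∂μ, ∀ q T : ℕ, 1 ≤ q → ∀ᶠ x : ℕ in atTop, ∀ a b : ℕ, a ≤ b → b ≤ T * x →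
      ((b : ℝ) - a) ≤ 1 / (q : ℝ) * x + 1 → (q : ℝ) * Z (A ω) x a b ^ 2 ≤ 9 * x := by
    rw [ae_all_iff]
    intro q
    rw [ae_all_iff]
    intro T
    by_cases hq : 1 ≤ q
    · filter_upwards [osc hA hq T] with ω hω _
      exact hω
    · filter_upwards with ω h
      exact absurd h hq
  have h3 : ∀ᵐ ω ∂μ, ∀ (q T k : ℕ) (d : Fin (q * T) → ℚ), 1 ≤ q → ∑ i, (q : ℝ) * (d i : ℝ) ^ 2 < 1 → ∀ᶠ j : ℕ in atTop,
      ∃ x, 2 ^ j ≤ x ∧ x < 2 * 2 ^ j ∧ ∀ i : Fin (q * T), |dl (A ω) q x i - d i| ≤ 1 / ((k : ℝ) + 1) := by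
    rw [ae_all_iff]
    intro q
    rw [ae_all_iff]
    intro T
    rw [ae_all_iff]
    intro k
    rw [ae_all_iff]
    intro d
    by_cases hq : 1 ≤ q ∧ ∑ i, (q : ℝ) * (d i : ℝ) ^ 2 < 1
    · have hk : (0 : ℝ) < 1 / ((k : ℝ) + 1) := by positivity
      filter_upwards [low_fin hA hq.1 T (fun i => (d i : ℝ)) hq.2 hk] with ω hω _ _
      exact hω
    · filter_upwards with ω h h'
      exact absurd ⟨h, h'⟩ hq
  filter_upwards [h1, h2, h3] with ω e1 e2 e3
  exact law_of_facts ⟨e1, e2, fun q T k hq d hd => e3 q T k d hq hd⟩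

end Pool.Agent.Results.MP_bf4c7f_nt.StrassenLaw
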